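import Pool.Agent.Helper53.UW.Ram

/-!
# PROJECT UR3 (MP_c578c8_lc), packet UW-GDL: good computations for programs with described memory
-/

namespace Pool.Agent.Helper62.UW

open Pool.Agent.Helper65.LinSpace Pool.Agent.Helper78.Mpc Pool.Agent.Helper28.Ram
open Pool.Agent.Helper81.Sus2
open Pool.Agent.Helper81.RP (Ins AcceptsAt word wd num_wd wd_num word_eq says_fun says_mono bd)
open Pool.Agent.Helper92.RE (LD machL memW memW_num conf_mach conf_mach1 conf_mach2 fits_mach
  guesses_mach accepts_iff)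
open Pool.Agent.Helper53.UW (Short FastSus GoodS GoalDCL GoalGDL)

/-- The memory of the machine. -/
theorem mem_machL {D : LD} {F : List Bool → List Bool} (hF : D.Is F) (P : List Ins)
    (w y : List Bool) (g : ℕ → Bool) {τ : ℕ} (hτ : w.length + 1 ≤ τ) :
    ((machL D P).conf w y g τ).2 =
      memW w y (Pool.Agent.Helper81.RP.conf P (F w) y ((τ - w.length) / 3)).2 := by
  obtain ⟨q, hq⟩ : ∃ q, τ = w.length + 1 + 3 * q ∨ τ = w.length + 1 + 3 * q + 1 ∨
      τ = w.length + 1 + 3 * q + 2 := ⟨(τ - w.length - 1) / 3, by omega⟩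
  rcases hq with hq | hq | hq
  · rw [show (τ - w.length) / 3 = q by omega, hq, conf_mach hF]
  · rw [show (τ - w.length) / 3 = q by omega, hq, conf_mach1 hF]
  · rw [show (τ - w.length) / 3 = q + 1 by omega, hq, conf_mach2 hF]

/-- A description of the registers of the program describes the memory of the machine. -/
theorem short_machL {D : LD} {F : List Bool → List Bool} (hF : D.Is F) {P : List Ins}
    {E E' : Decomp} {K : ℕ}
    (hK : ∀ (w y d i v : List Bool) (a s : ℕ), Nat.log 2 w.length + 1 ≤ s →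
      i.head? ≠ some false → E.Says (F w) y a d i v → E'.Says w y (K * (a + s + 1)) d i v)
    {w y : List Bool} {g : ℕ → Bool} {s a z m τ : ℕ} (hls : Nat.log 2 w.length + 1 ≤ s)
    (hτ : w.length + 1 ≤ τ) (hm : (τ - w.length) / 3 = m) (h : Short P E (F w) y s a z m) :
    (machL D P).Short E' w y g (9 * s) (K * (a + s + 1) + s) z 0 [] τ := by
  obtain ⟨d, hd, h1⟩ := h
  refine ⟨d, hd, fun i v hi hi0 => ?_⟩
  have hp := num_pos i
  have hodd : num i % 2 = 1 := by
    rcases i with _ | ⟨b', u'⟩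
    · rfl
    · cases b'
      · exact absurd rfl hi0
      · show (true.toNat + 2 * num u') % 2 = 1
        rw [Bool.toNat_true]
        omega
  have hlt : num i < 2 ^ (9 * s + 1) := by
    have h2 : num i < 2 ^ (Nat.log 2 (num i) + 1) := Nat.lt_pow_succ_log_self (by norm_num) _
    rw [log_num] at h2
    exact h2.trans_le (Nat.pow_le_pow_right (by norm_num) (by omega))
  have hj : num i / 2 < 2 ^ (9 * s) := by
    rw [pow_succ] at hlt
    omega
  have hiw : word (2 * (num i / 2) + 1) = i := by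
    rw [word_eq (by omega), show 2 * (num i / 2) + 1 = num i by omega, wd_num]
  have hmem : ((machL D P).conf w y g τ).2 i =
      wd ((Pool.Agent.Helper81.RP.conf P (F w) y m).2 (num i / 2) + 1) := by
    rw [mem_machL hF P w y g hτ, hm, memW_num w y _ hi0]
  have h2 := (h1 (num i / 2) _ hj).2 rfl
  rw [hiw] at h2
  have h3 := says_mono (Nat.le_add_right _ s) (hK w y d i _ a s hls hi0 h2)
  constructor
  · intro hs
    refine ⟨Or.inl rfl, ?_⟩
    rw [hmem, says_fun hs h3, word_eq (Nat.succ_pos _)]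
  · rintro ⟨-, h4⟩
    rw [hmem] at h4
    rw [word_eq (Nat.succ_pos _), h4] at h3
    exact h3

/-- The bounds. -/
theorem bounds {C N M B l s a r K : ℝ} (hl : 0 ≤ l) (hls : l ≤ s) (hs1 : 1 ≤ s) (ha : 0 ≤ a)
    (hr : 0 ≤ r) (hK : 0 ≤ K) (hN : 1 ≤ N) (hB : 1 ≤ B) (hM0 : 1 ≤ M) (hM : M ≤ B * N)
    (b1 : r * s ^ 5 ≤ C * M ^ 2) (b2 : (a + s) * s ^ 4 ≤ C * M) :
    (N + 3 * r + 2) * (9 * s + l) ^ 5 ≤ (1300000 + 20000 * K) * |C| * B ^ 2 * N ^ 2 ∧
      (9 * s + (K * (a + s + 1) + s)) * (9 * s + l) ^ 4 ≤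
        (1300000 + 20000 * K) * |C| * B ^ 2 * N := by
  have hC : 0 ≤ |C| := abs_nonneg C
  have hCle : C ≤ |C| := le_abs_self C
  have hX0 : 0 ≤ 9 * s + l := by linarith
  have hX : 9 * s + l ≤ 10 * s := by linarith
  have h5 : (9 * s + l) ^ 5 ≤ (10 * s) ^ 5 := pow_le_pow_left₀ hX0 hX 5
  have h4 : (9 * s + l) ^ 4 ≤ (10 * s) ^ 4 := pow_le_pow_left₀ hX0 hX 4
  have hBB : B ≤ B ^ 2 := by nlinarith
  have hBN : 0 ≤ B * N := by positivity
  have c2 : (a + s) * s ^ 4 ≤ |C| * B ^ 2 * N := by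
    calc (a + s) * s ^ 4 ≤ C * M := b2
      _ ≤ |C| * M := mul_le_mul_of_nonneg_right hCle (by linarith)
      _ ≤ |C| * (B * N) := mul_le_mul_of_nonneg_left hM hC
      _ ≤ |C| * (B ^ 2 * N) := by
        refine mul_le_mul_of_nonneg_left ?_ hC
        exact mul_le_mul_of_nonneg_right hBB (by linarith)
      _ = _ := by ring
  have c1 : r * s ^ 5 ≤ |C| * B ^ 2 * N ^ 2 := by
    calc r * s ^ 5 ≤ C * M ^ 2 := b1
      _ ≤ |C| * M ^ 2 := mul_le_mul_of_nonneg_right hCle (by positivity)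
      _ ≤ |C| * (B * N) ^ 2 := by
        refine mul_le_mul_of_nonneg_left ?_ hC
        exact pow_le_pow_left₀ (by linarith) hM 2
      _ = _ := by ring
  have c3 : s ^ 5 ≤ |C| * B ^ 2 * N := by
    calc s ^ 5 = s * s ^ 4 := by ring
      _ ≤ (a + s) * s ^ 4 := by
        refine mul_le_mul_of_nonneg_right (by linarith) (by positivity)
      _ ≤ _ := c2
  have c4 : N * s ^ 5 ≤ |C| * B ^ 2 * N ^ 2 := by
    calc N * s ^ 5 ≤ N * (|C| * B ^ 2 * N) := mul_le_mul_of_nonneg_left c3 (by linarith)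
      _ = _ := by ring
  have hD : 0 ≤ |C| * B ^ 2 * N := by positivity
  have hD2 : 0 ≤ |C| * B ^ 2 * N ^ 2 := by positivity
  constructor
  · calc (N + 3 * r + 2) * (9 * s + l) ^ 5 ≤ (3 * N + 3 * r) * (10 * s) ^ 5 := by
          refine mul_le_mul (by linarith) h5 (by positivity) (by positivity)
      _ = 300000 * (N * s ^ 5) + 300000 * (r * s ^ 5) := by ring
      _ ≤ 300000 * (|C| * B ^ 2 * N ^ 2) + 300000 * (|C| * B ^ 2 * N ^ 2) := by gcongr
      _ = 600000 * (|C| * B ^ 2 * N ^ 2) := by ring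
      _ ≤ (1300000 + 20000 * K) * (|C| * B ^ 2 * N ^ 2) := by
        refine mul_le_mul_of_nonneg_right (by linarith) hD2
      _ = _ := by ring
  · have h6 : 9 * s + (K * (a + s + 1) + s) ≤ (10 + 2 * K) * (a + s) := by
      have h7 : K * (a + s + 1) ≤ K * (2 * (a + s)) :=
        mul_le_mul_of_nonneg_left (by linarith) hK
      nlinarith
    calc (9 * s + (K * (a + s + 1) + s)) * (9 * s + l) ^ 4
        ≤ ((10 + 2 * K) * (a + s)) * (10 * s) ^ 4 := by
          refine mul_le_mul h6 h4 (by positivity) (by positivity)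
      _ = (100000 + 20000 * K) * ((a + s) * s ^ 4) := by ring
      _ ≤ (100000 + 20000 * K) * (|C| * B ^ 2 * N) := by gcongr
      _ ≤ (1300000 + 20000 * K) * (|C| * B ^ 2 * N) := by
        refine mul_le_mul_of_nonneg_right (by linarith) hD
      _ = _ := by ring

/-- **Good computations.** -/
theorem gGDL : GoalGDL := by
  intro hDCL P E D F hF
  obtain ⟨E', K, hK⟩ := hDCL E hF
  refine ⟨E', fun b₀ c C hlen hle => ?_⟩
  set B : ℝ := (b₀ : ℝ) + 1 with hB
  have hB1 : 1 ≤ B := by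
    have h1 : (0 : ℝ) ≤ b₀ := Nat.cast_nonneg _
    linarith
  refine ⟨(1300000 + 20000 * (K : ℝ)) * |C| * B ^ 2, 3 * bd P + 6, ?_⟩
  rintro w y hw ⟨t, s, a, r, hls, hacc, hR, hsus, b1, b2⟩
  have hwx : w.length ≤ (F w).length := hle w
  have hn : w.length < 2 ^ s := by
    refine hwx.trans_lt ((Nat.lt_pow_succ_log_self (b := 2) (by norm_num) _).trans_le ?_)
    exact Nat.pow_le_pow_right (by norm_num) hls
  have hs3 : 3 ≤ s := by
    by_contra hcon
    have : 2 ^ s ≤ 2 ^ 2 := Nat.pow_le_pow_right (by norm_num) (by omega)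
    omega
  have hb : 3 * bd P + 6 ≤ 2 ^ s := by omega
  have hlog : Nat.log 2 w.length ≤ Nat.log 2 (F w).length := Nat.log_mono_right hwx
  have hlw : Nat.log 2 w.length + 1 ≤ s := (Nat.succ_le_succ hlog).trans hls
  have hN : (1 : ℝ) ≤ (w.length : ℝ) + 1 := by
    have : (0 : ℝ) ≤ w.length := Nat.cast_nonneg _
    linarith
  have hN0 : (1 : ℝ) ≤ ((F w).length : ℝ) + 1 := by
    have : (0 : ℝ) ≤ (F w).length := Nat.cast_nonneg _
    linarith
  have hN' : ((F w).length : ℝ) + 1 ≤ B * ((w.length : ℝ) + 1) := by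
    have h1 : (F w).length + 1 ≤ (b₀ + 1) * (w.length + 1) := by
      have h2 := hlen w
      calc (F w).length + 1 ≤ b₀ * (w.length + 1) + 1 := by omega
        _ ≤ (b₀ + 1) * (w.length + 1) := by nlinarith
    rw [hB]
    exact_mod_cast h1
  have hl0 : (0 : ℝ) ≤ (Nat.log 2 w.length : ℝ) + 1 := by positivity
  have hlsr : (Nat.log 2 w.length : ℝ) + 1 ≤ s := by exact_mod_cast hlw
  have hs1 : (1 : ℝ) ≤ s := by exact_mod_cast (by omega : 1 ≤ s)
  obtain ⟨q1, q2⟩ := bounds hl0 hlsr hs1 (Nat.cast_nonneg a) (Nat.cast_nonneg r)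
    (Nat.cast_nonneg K) hN hB1 hN0 hN' b1 b2
  refine ⟨fun _ => false, w.length + 1 + 3 * t, 9 * s, K * (a + s + 1) + s,
    w.length + 1 + 3 * r + 2, ?_, ?_, ?_, ?_, ?_, ?_⟩
  · exact (accepts_iff hF P w y _ _).2 ⟨t, rfl, hacc⟩
  · exact fits_mach hF _ hs3 hb hn hR (by omega)
  · rw [guesses_mach]
    exact Nat.zero_le _
  · intro u v huv hv hns
    rcases le_or_gt v (w.length + 1) with h | h
    · omega
    have h1 : (v - w.length) / 3 ≤ (max u (w.length + 1) - w.length) / 3 + r := by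
      refine hsus _ _ (by omega) (by omega) fun m hm1 hm2 hsh => ?_
      exact hns (w.length + 3 * m) (by omega) (by omega)
        (short_machL hF hK hlw (by omega) (by omega) hsh)
    omega
  · push_cast
    exact q1
  · push_cast
    exact q2

end Pool.Agent.Helper62.UW
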